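import Pool.Agent.Helper56.Un.E8Stmts

set_option autoImplicit false

/-!
# E_ISO : the orthogonal frame of the Eisenstein lattice `E8L`
-/

namespace Pool.Agent.Helper19.Un

open scoped ComplexConjugate

lemma eiso_sq3 : Real.sqrt 3 * Real.sqrt 3 = 3 := Real.mul_self_sqrt (by norm_num)

lemma eiso_sq_ne3 : Real.sqrt 3 ≠ 0 := by positivity

lemma eiso_om2 : om * om = -1 - om := by
  have h3 := eiso_sq3
  apply Complex.ext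
  · simp only [om, Complex.mul_re, Complex.sub_re, Complex.neg_re, Complex.one_re]
    linear_combination (-1 / 4) * h3
  · simp only [om, Complex.mul_im, Complex.sub_im, Complex.neg_im, Complex.one_im]
    ring

lemma eiso_th : th = 1 + 2 * om := by
  apply Complex.ext
  · simp [om, th]
    norm_num
  · simp [om, th]
    ring

lemma eiso_coe (a b : ℝ) : ((a : ℂ) + b * om).re = a - b / 2 ∧
    ((a : ℂ) + b * om).im = Real.sqrt 3 / 2 * b := by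
  constructor
  · simp [om]; ring
  · simp [om]; ring

lemma eiso_inj {a b c d : ℝ} (h : (a : ℂ) + b * om = c + d * om) : a = c ∧ b = d := by
  have h1 := congrArg Complex.re h
  have h2 := congrArg Complex.im h
  rw [(eiso_coe a b).1, (eiso_coe c d).1] at h1
  rw [(eiso_coe a b).2, (eiso_coe c d).2] at h2
  have hb : b = d := by
    have h3 : Real.sqrt 3 / 2 ≠ 0 := div_ne_zero eiso_sq_ne3 (by norm_num)
    exact mul_left_cancel₀ h3 h2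
  subst hb
  exact ⟨by linarith, rfl⟩

lemma eiso_dec (z : ℂ) : ∃ c d : ℝ, z = (c : ℂ) + d * om := by
  refine ⟨z.re + z.im / Real.sqrt 3, 2 * z.im / Real.sqrt 3, ?_⟩
  have h := eiso_sq_ne3
  apply Complex.ext
  · rw [(eiso_coe _ _).1]
    ring
  · rw [(eiso_coe _ _).2]
    field_simp

lemma eiso_decv (ζ : E 4) : ∃ c d : Fin 4 → ℝ, ∀ j, ζ j = (c j : ℂ) + d j * om := by
  choose c d h using fun j => eiso_dec (ζ j)
  exact ⟨c, d, h⟩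

lemma eiso_inner (x y : E 4) (a b c d : Fin 4 → ℝ) (hx : ∀ j, x j = (a j : ℂ) + b j * om)
    (hy : ∀ j, y j = (c j : ℂ) + d j * om) :
    (inner ℂ x y).re = ∑ j, (a j * c j + b j * d j - (a j * d j + b j * c j) / 2) := by
  have h3 := eiso_sq3
  rw [PiLp.inner_apply, Complex.re_sum]
  refine Finset.sum_congr rfl fun j _ => ?_
  rw [hx, hy]
  have h1 := eiso_coe (a j) (b j)
  have h2 := eiso_coe (c j) (d j)
  simp only [RCLike.inner_apply, Complex.mul_re, Complex.conj_re, Complex.conj_im]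
  rw [h1.1, h1.2, h2.1, h2.2]
  linear_combination (b j * d j / 4) * h3

/-- first coordinates of the frame -/
noncomputable def eisoA : Fin 8 → Fin 4 → ℝ :=
  ![![-1, -1 / 2, 0, -1 / 2], ![-1, 1 / 2, 0, 1 / 2], ![0, 1 / 2, 0, 1 / 2],
    ![0, -1 / 2, 0, -1 / 2], ![0, -1 / 2, 0, 1 / 2], ![0, -1 / 2, -1, 1 / 2],
    ![0, -1 / 2, 0, 1 / 2], ![0, -1 / 2, 1, 1 / 2]]

/-- second coordinates of the frame -/
noncomputable def eisoB : Fin 8 → Fin 4 → ℝ :=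
  ![![-1, -1 / 2, 0, 0], ![0, 1 / 2, 0, 0], ![-1, 1 / 2, 0, 0],
    ![0, 1 / 2, 0, -1], ![0, 1 / 2, 0, 1], ![0, -1 / 2, -1, 0],
    ![0, -1 / 2, 1, 0], ![0, -1 / 2, 0, 0]]

lemma eiso_frame (i : Fin 8) (j : Fin 4) : eE i j = (eisoA i j : ℂ) + eisoB i j * om := by
  fin_cases i <;> fin_cases j <;> simp [eE, eisoA, eisoB, eiso_th] <;> ring

lemma eiso_x (ζ : E 4) (c d : Fin 4 → ℝ) (hζ : ∀ j, ζ j = (c j : ℂ) + d j * om) (i : Fin 8) :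
    xe ζ i = 2 / 3 * ∑ j, (eisoA i j * c j + eisoB i j * d j
      - (eisoA i j * d j + eisoB i j * c j) / 2) := by
  unfold xe
  rw [eiso_inner (eE i) ζ (eisoA i) (eisoB i) c d (eiso_frame i) hζ]

lemma eiso_xs (ζ : E 4) (c d : Fin 4 → ℝ) (hζ : ∀ j, ζ j = (c j : ℂ) + d j * om) :
    xe ζ 0 = (-2 * (c 0 + d 0) - (c 1 + d 1) - 2 * c 3 + d 3) / 6 ∧
    xe ζ 1 = (-4 * c 0 + 2 * d 0 + (c 1 + d 1) + 2 * c 3 - d 3) / 6 ∧
    xe ζ 2 = (2 * c 0 - 4 * d 0 + (c 1 + d 1) + 2 * c 3 - d 3) / 6 ∧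
    xe ζ 3 = (-c 1 + d 1 - d 3) / 2 ∧
    xe ζ 4 = (-c 1 + d 1 + d 3) / 2 ∧
    xe ζ 5 = (-(c 1 + d 1) - 2 * (c 2 + d 2) + 2 * c 3 - d 3) / 6 ∧
    xe ζ 6 = (-(c 1 + d 1) - 2 * c 2 + 4 * d 2 + 2 * c 3 - d 3) / 6 ∧
    xe ζ 7 = (-(c 1 + d 1) + 4 * c 2 - 2 * d 2 + 2 * c 3 - d 3) / 6 := by
  refine ⟨?_, ?_, ?_, ?_, ?_, ?_, ?_, ?_⟩ <;>
    (rw [eiso_x ζ c d hζ]; simp [Fin.sum_univ_four, eisoA, eisoB]; ring)

lemma eiso_orth (i j : Fin 8) : (inner ℂ (eE i) (eE j)).re = if i = j then 3 / 2 else 0 := by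
  rw [eiso_inner (eE i) (eE j) (eisoA i) (eisoB i) (eisoA j) (eisoB j) (eiso_frame i)
    (eiso_frame j)]
  fin_cases i <;> fin_cases j <;> simp [Fin.sum_univ_four, eisoA, eisoB] <;> norm_num

lemma eiso_inv (ζ : E 4) (c d : Fin 4 → ℝ) (hζ : ∀ j, ζ j = (c j : ℂ) + d j * om) (j : Fin 4) :
    c j = ∑ i, xe ζ i * eisoA i j ∧ d j = ∑ i, xe ζ i * eisoB i j := by
  obtain ⟨h0, h1, h2, h3, h4, h5, h6, h7⟩ := eiso_xs ζ c d hζ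
  rw [Fin.sum_univ_eight, Fin.sum_univ_eight, h0, h1, h2, h3, h4, h5, h6, h7]
  fin_cases j <;> constructor <;> simp [eisoA, eisoB] <;> ring

lemma eiso_exp (ζ : E 4) : ζ = ∑ i, xe ζ i • eE i := by
  obtain ⟨c, d, hζ⟩ := eiso_decv ζ
  ext j
  obtain ⟨hc, hd⟩ := eiso_inv ζ c d hζ j
  rw [hζ, hc, hd]
  have e : (∑ i, xe ζ i • eE i : E 4) j = ∑ i, (xe ζ i : ℂ) * eE i j := by
    rw [WithLp.ofLp_sum, Finset.sum_apply]
    refine Finset.sum_congr rfl fun i _ => ?_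
    rw [WithLp.ofLp_smul, Pi.smul_apply, Complex.real_smul]
  rw [e, Complex.ofReal_sum, Complex.ofReal_sum, Finset.sum_mul, ← Finset.sum_add_distrib]
  refine Finset.sum_congr rfl fun i _ => ?_
  rw [eiso_frame]
  push_cast
  ring

lemma eiso_norm (ζ : E 4) : 2 / 3 * ‖ζ‖ ^ 2 = ∑ i, xe ζ i ^ 2 := by
  obtain ⟨c, d, hζ⟩ := eiso_decv ζ
  have hn : ‖ζ‖ ^ 2 = (inner ℂ ζ ζ).re := by
    rw [inner_self_eq_norm_sq_to_K]
    norm_cast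
  obtain ⟨h0, h1, h2, h3, h4, h5, h6, h7⟩ := eiso_xs ζ c d hζ
  rw [hn, eiso_inner ζ ζ c d c d hζ hζ, Fin.sum_univ_eight, Fin.sum_univ_four, h0, h1, h2, h3, h4,
    h5, h6, h7]
  ring

lemma eiso_mem1 (ζ : E 4) (hm : ζ ∈ E8L) :
    ∃ A : Fin 8 → ℤ, GA A ∧ ∀ i, xe ζ i = (A i : ℝ) / 2 := by
  obtain ⟨hE, ⟨k, ⟨k1, k2, hk⟩, hK⟩, l, ⟨l1, l2, hl⟩, hL⟩ := hm
  choose p q hpq using hE
  have hζ : ∀ j, ζ j = (((p j : ℤ) : ℝ) : ℂ) + (((q j : ℤ) : ℝ) : ℂ) * om := by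
    intro j
    rw [hpq j]
    push_cast
    rfl
  have e1 : (((p 0 + p 1 + p 2 : ℤ) : ℝ) : ℂ) + ((q 0 + q 1 + q 2 : ℤ) : ℝ) * om
      = ((k1 - 2 * k2 : ℤ) : ℝ) + ((2 * k1 - k2 : ℤ) : ℝ) * om := by
    have e := hK
    rw [hζ, hζ, hζ, hk, eiso_th] at e
    push_cast at e ⊢
    linear_combination e + 2 * (k2 : ℂ) * eiso_om2
  have e2 : (((p 1 - p 2 + p 3 : ℤ) : ℝ) : ℂ) + ((q 1 - q 2 + q 3 : ℤ) : ℝ) * om
      = ((l1 - 2 * l2 : ℤ) : ℝ) + ((2 * l1 - l2 : ℤ) : ℝ) * om := by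
    have e := hL
    rw [hζ, hζ, hζ, hl, eiso_th] at e
    push_cast at e ⊢
    linear_combination e + 2 * (l2 : ℂ) * eiso_om2
  obtain ⟨a1, a2⟩ := eiso_inj e1
  obtain ⟨a3, a4⟩ := eiso_inj e2
  have b1 : p 0 + p 1 + p 2 = k1 - 2 * k2 := by exact_mod_cast a1
  have b2 : q 0 + q 1 + q 2 = 2 * k1 - k2 := by exact_mod_cast a2
  have b3 : p 1 - p 2 + p 3 = l1 - 2 * l2 := by exact_mod_cast a3
  have b4 : q 1 - q 2 + q 3 = 2 * l1 - l2 := by exact_mod_cast a4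
  have c0 : ∃ x : ℤ, 3 * x = -2 * (p 0 + q 0) - (p 1 + q 1) - 2 * p 3 + q 3 :=
    ⟨(-2 * (p 0 + q 0) - (p 1 + q 1) - 2 * p 3 + q 3) / 3, by omega⟩
  have c1 : ∃ x : ℤ, 3 * x = -4 * p 0 + 2 * q 0 + (p 1 + q 1) + 2 * p 3 - q 3 :=
    ⟨(-4 * p 0 + 2 * q 0 + (p 1 + q 1) + 2 * p 3 - q 3) / 3, by omega⟩
  have c2 : ∃ x : ℤ, 3 * x = 2 * p 0 - 4 * q 0 + (p 1 + q 1) + 2 * p 3 - q 3 :=
    ⟨(2 * p 0 - 4 * q 0 + (p 1 + q 1) + 2 * p 3 - q 3) / 3, by omega⟩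
  have c5 : ∃ x : ℤ, 3 * x = -(p 1 + q 1) - 2 * (p 2 + q 2) + 2 * p 3 - q 3 :=
    ⟨(-(p 1 + q 1) - 2 * (p 2 + q 2) + 2 * p 3 - q 3) / 3, by omega⟩
  have c6 : ∃ x : ℤ, 3 * x = -(p 1 + q 1) - 2 * p 2 + 4 * q 2 + 2 * p 3 - q 3 :=
    ⟨(-(p 1 + q 1) - 2 * p 2 + 4 * q 2 + 2 * p 3 - q 3) / 3, by omega⟩
  have c7 : ∃ x : ℤ, 3 * x = -(p 1 + q 1) + 4 * p 2 - 2 * q 2 + 2 * p 3 - q 3 :=
    ⟨(-(p 1 + q 1) + 4 * p 2 - 2 * q 2 + 2 * p 3 - q 3) / 3, by omega⟩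
  obtain ⟨x0, c0⟩ := c0
  obtain ⟨x1, c1⟩ := c1
  obtain ⟨x2, c2⟩ := c2
  obtain ⟨x5, c5⟩ := c5
  obtain ⟨x6, c6⟩ := c6
  obtain ⟨x7, c7⟩ := c7
  obtain ⟨h0, h1, h2, h3, h4, h5, h6, h7⟩ := eiso_xs ζ (fun j => ((p j : ℤ) : ℝ))
    (fun j => ((q j : ℤ) : ℝ)) hζ
  refine ⟨![x0, x1, x2, -p 1 + q 1 - q 3, -p 1 + q 1 + q 3, x5, x6, x7], ⟨?_, ?_⟩, ?_⟩
  · rcases Int.emod_two_eq_zero_or_one (p 1 + q 1 + q 3) with h | h
    · left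
      intro i
      fin_cases i <;> simp <;> omega
    · right
      intro i
      fin_cases i <;> simp <;> omega
  · rw [Fin.sum_univ_eight]
    simp
    omega
  · have c0' : (3 : ℝ) * x0 = -2 * (p 0 + q 0) - (p 1 + q 1) - 2 * p 3 + q 3 := by exact_mod_cast c0
    have c1' : (3 : ℝ) * x1 = -4 * p 0 + 2 * q 0 + (p 1 + q 1) + 2 * p 3 - q 3 := by
      exact_mod_cast c1
    have c2' : (3 : ℝ) * x2 = 2 * p 0 - 4 * q 0 + (p 1 + q 1) + 2 * p 3 - q 3 := by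
      exact_mod_cast c2
    have c5' : (3 : ℝ) * x5 = -(p 1 + q 1) - 2 * (p 2 + q 2) + 2 * p 3 - q 3 := by
      exact_mod_cast c5
    have c6' : (3 : ℝ) * x6 = -(p 1 + q 1) - 2 * p 2 + 4 * q 2 + 2 * p 3 - q 3 := by
      exact_mod_cast c6
    have c7' : (3 : ℝ) * x7 = -(p 1 + q 1) + 4 * p 2 - 2 * q 2 + 2 * p 3 - q 3 := by
      exact_mod_cast c7
    intro i
    fin_cases i
    · change xe ζ 0 = (x0 : ℝ) / 2
      linarith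
    · change xe ζ 1 = (x1 : ℝ) / 2
      linarith
    · change xe ζ 2 = (x2 : ℝ) / 2
      linarith
    · change xe ζ 3 = ((-p 1 + q 1 - q 3 : ℤ) : ℝ) / 2
      push_cast
      linarith
    · change xe ζ 4 = ((-p 1 + q 1 + q 3 : ℤ) : ℝ) / 2
      push_cast
      linarith
    · change xe ζ 5 = (x5 : ℝ) / 2
      linarith
    · change xe ζ 6 = (x6 : ℝ) / 2
      linarith
    · change xe ζ 7 = (x7 : ℝ) / 2
      linarith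

lemma eiso_mem2 (ζ : E 4) (A : Fin 8 → ℤ) (hA : GA A) (hx : ∀ i, xe ζ i = (A i : ℝ) / 2) :
    ζ ∈ E8L := by
  obtain ⟨c, d, hζ⟩ := eiso_decv ζ
  obtain ⟨hpar, hsum⟩ := hA
  rw [Fin.sum_univ_eight] at hsum
  have hp : ∀ i, A i % 2 = A 0 % 2 := by
    intro i
    rcases hpar with h | h
    · rw [h i, h 0]
    · rw [h i, h 0]
  have hm : ∀ i, ∃ m : ℤ, A i = A 0 + 2 * m := fun i =>
    ⟨(A i - A 0) / 2, by have h := hp i; omega⟩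
  choose m hm using hm
  clear hpar hp
  have ht : ∃ t : ℤ, m 1 + m 2 + m 3 + m 4 + m 5 + m 6 + m 7 = 2 * t := by
    rw [hm 1, hm 2, hm 3, hm 4, hm 5, hm 6, hm 7] at hsum
    exact ⟨(m 1 + m 2 + m 3 + m 4 + m 5 + m 6 + m 7) / 2, by omega⟩
  obtain ⟨t, ht⟩ := ht
  clear hsum
  have htr : (m 1 : ℝ) + m 2 + m 3 + m 4 + m 5 + m 6 + m 7 = 2 * t := by exact_mod_cast ht
  have htc : (m 1 : ℂ) + m 2 + m 3 + m 4 + m 5 + m 6 + m 7 = 2 * t := by exact_mod_cast ht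
  have hmr : ∀ i, (A i : ℝ) = A 0 + 2 * m i := by
    intro i
    exact_mod_cast hm i
  have x0 := hx 0
  have x1 := hx 1
  have x2 := hx 2
  have x3 := hx 3
  have x4 := hx 4
  have x5 := hx 5
  have x6 := hx 6
  have x7 := hx 7
  obtain ⟨h0, h1, h2, h3, h4, h5, h6, h7⟩ := eiso_xs ζ c d hζ
  rw [h0] at x0
  rw [h1] at x1
  rw [h2] at x2
  rw [h3] at x3
  rw [h4] at x4
  rw [h5] at x5
  rw [h6] at x6
  rw [h7] at x7
  rw [hmr 1] at x1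
  rw [hmr 2] at x2
  rw [hmr 3] at x3
  rw [hmr 4] at x4
  rw [hmr 5] at x5
  rw [hmr 6] at x6
  rw [hmr 7] at x7
  have s0 : c 0 = -A 0 - m 1 := by linarith
  have t0 : d 0 = -A 0 - m 2 := by linarith
  have s1 : c 1 = -A 0 + m 1 + m 2 - t := by linarith
  have t1 : d 1 = m 1 + m 2 + m 3 + m 4 - t := by linarith
  have s2 : c 2 = m 7 - m 5 := by linarith
  have t2 : d 2 = m 6 - m 5 := by linarith
  have s3 : c 3 = A 0 + t - m 3 := by linarith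
  have t3 : d 3 = m 4 - m 3 := by linarith
  have z0 : ζ 0 = ((-A 0 - m 1 : ℤ) : ℂ) + ((-A 0 - m 2 : ℤ) : ℂ) * om := by
    rw [hζ, s0, t0]
    push_cast
    rfl
  have z1 : ζ 1 = ((-A 0 + m 1 + m 2 - t : ℤ) : ℂ) +
      ((m 1 + m 2 + m 3 + m 4 - t : ℤ) : ℂ) * om := by
    rw [hζ, s1, t1]
    push_cast
    rfl
  have z2 : ζ 2 = ((m 7 - m 5 : ℤ) : ℂ) + ((m 6 - m 5 : ℤ) : ℂ) * om := by
    rw [hζ, s2, t2]
    push_cast
    rfl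
  have z3 : ζ 3 = ((A 0 + t - m 3 : ℤ) : ℂ) + ((m 4 - m 3 : ℤ) : ℂ) * om := by
    rw [hζ, s3, t3]
    push_cast
    rfl
  refine ⟨?_, ⟨((t - m 2 - m 5 - m 7 : ℤ) : ℂ) + ((A 0 + t - m 2 - m 7 : ℤ) : ℂ) * om,
    ⟨_, _, rfl⟩, ?_⟩, ((m 4 - m 6 : ℤ) : ℂ) + ((m 3 + m 4 + m 7 - t : ℤ) : ℂ) * om,
    ⟨_, _, rfl⟩, ?_⟩
  · intro i
    fin_cases i
    · exact ⟨_, _, z0⟩
    · exact ⟨_, _, z1⟩
    · exact ⟨_, _, z2⟩
    · exact ⟨_, _, z3⟩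
  · rw [z0, z1, z2, eiso_th]
    push_cast
    linear_combination om * htc
      - 2 * ((A 0 : ℂ) + t - m 2 - m 7) * eiso_om2
  · rw [z1, z2, z3, eiso_th]
    push_cast
    linear_combination (1 + om) * htc - 2 * ((m 3 : ℂ) + m 4 + m 7 - t) * eiso_om2

theorem st_EISO : ST_EISO :=
  ⟨eiso_orth, eiso_exp, eiso_norm, fun ζ => ⟨eiso_mem1 ζ, fun ⟨A, hA, hx⟩ => eiso_mem2 ζ A hA hx⟩⟩

end Pool.Agent.Helper19.Un
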